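import Mathlib

/-!
# MP_6d1e65_an: `τ_M` is the strongest triangle function universal for simple spaces
-/

namespace Pool.Agent.Results.MP_6d1e65_an.Strongest

open Set Filter Topology ENNReal

/-- The set `Δ⁺` of distance distribution functions on `[0,∞]`. -/
@[ext]
structure DPlus where
  toFun : ℝ≥0∞ → ℝ
  mono' : Monotone toFun
  leftCont' : ∀ x, 0 < x → x < ⊤ → ContinuousWithinAt toFun (Iic x) x
  map_zero' : toFun 0 = 0
  map_top' : toFun ⊤ = 1

instance : CoeFun DPlus (fun _ => ℝ≥0∞ → ℝ) := ⟨DPlus.toFun⟩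

/-- the pointwise order on `Δ⁺` -/
instance : LE DPlus := ⟨fun F G => ∀ x, F x ≤ G x⟩

/-- `ε_0` -/
noncomputable def eps0 : DPlus where
  toFun x := if x = 0 then 0 else 1
  mono' := by
    intro x y hxy
    by_cases hx : x = 0
    · simp only [hx, if_true]
      split_ifs <;> norm_num
    · have hy : y ≠ 0 := fun h => hx (le_antisymm (h ▸ hxy) (zero_le))
      simp [hx, hy]
  leftCont' := by
    intro x hx _
    have h : (fun y : ℝ≥0∞ => if y = 0 then (0:ℝ) else 1) =ᶠ[𝓝 x] fun _ => 1 := by
      filter_upwards [lt_mem_nhds hx] with y hy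
      simp [hy.ne']
    exact ((continuousAt_const.congr h.symm)).continuousWithinAt
  map_zero' := by simp
  map_top' := by simp

/-- `ε_∞` -/
noncomputable def epsTop : DPlus where
  toFun x := if x = ⊤ then 1 else 0
  mono' := by
    intro x y hxy
    by_cases hy : y = ⊤
    · simp only [hy, if_true]
      split_ifs <;> norm_num
    · have hx : x ≠ ⊤ := fun h => hy (le_antisymm le_top (h ▸ hxy))
      simp [hx, hy]
  leftCont' := by
    intro x _ hx
    have h : (fun y : ℝ≥0∞ => if y = ⊤ then (1:ℝ) else 0) =ᶠ[𝓝 x] fun _ => 0 := by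
      filter_upwards [gt_mem_nhds hx] with y hy
      simp [hy.ne]
    exact ((continuousAt_const.congr h.symm)).continuousWithinAt
  map_zero' := by simp
  map_top' := by simp

/-- A triangle function. -/
structure IsTriangleFunction (τ : DPlus → DPlus → DPlus) : Prop where
  comm : ∀ F G, τ F G = τ G F
  assoc : ∀ F G H, τ (τ F G) H = τ F (τ G H)
  mono : ∀ F F' G G', F ≤ F' → G ≤ G' → τ F G ≤ τ F' G'
  ident : ∀ F, τ eps0 F = F

/-- `τ_M(F,G)(x) = sup {min (F u) (G v) : u + v = x}` -/
noncomputable def tauM (F G : DPlus) (x : ℝ≥0∞) : ℝ :=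
  sSup {t | ∃ u v : ℝ≥0∞, u + v = x ∧ t = min (F u) (G v)}

/-- The distribution function `x ↦ G(x/δ)` of a simple space at distance `δ ∈ [0,∞]`
(value `1` at `x = ∞`; in `ℝ≥0∞` one has `x/0 = ∞` for `x ≠ 0` and `0/0 = 0`). -/
noncomputable def simple (G : DPlus) (δ : ℝ≥0∞) : DPlus where
  toFun x := if x = ⊤ then 1 else G (x / δ)
  mono' := by
    intro x y hxy
    have hle : ∀ z, G z ≤ 1 := fun z => by
      have := G.mono' (le_top : z ≤ ⊤)
      rwa [G.map_top'] at this
    by_cases hy : y = ⊤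
    · simp only [hy, if_true]
      split_ifs
      · exact le_rfl
      · exact hle _
    · have hx : x ≠ ⊤ := fun h => hy (le_antisymm le_top (h ▸ hxy))
      simp only [hx, hy, if_false]
      exact G.mono' (ENNReal.div_le_div_right hxy δ)
  leftCont' := by
    intro x hx0 hx
    have h : (fun y : ℝ≥0∞ => if y = ⊤ then (1:ℝ) else G (y / δ)) =ᶠ[𝓝 x]
        fun y => G (y / δ) := by
      filter_upwards [gt_mem_nhds hx] with y hy
      simp [hy.ne]
    have key : ContinuousWithinAt (fun y => G (y / δ)) (Iic x) x := by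
      by_cases h0 : δ = 0
      · have h1 : (fun y : ℝ≥0∞ => G (y / δ)) =ᶠ[𝓝 x] fun _ => 1 := by
          filter_upwards [lt_mem_nhds hx0] with y hy
          rw [h0, ENNReal.div_zero hy.ne', G.map_top']
        exact ((continuousAt_const.congr h1.symm)).continuousWithinAt
      · by_cases h1 : δ = ⊤
        · have h2 : (fun y : ℝ≥0∞ => G (y / δ)) = fun _ => 0 := by
            ext y
            rw [h1, ENNReal.div_top, G.map_zero']
          rw [h2]
          exact continuousWithinAt_const
        · have hpos : 0 < x / δ := ENNReal.div_pos hx0.ne' h1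
          have hfin : x / δ < ⊤ := ENNReal.div_lt_top hx.ne h0
          have h3 := G.leftCont' (x / δ) hpos hfin
          have h4 : ContinuousWithinAt (fun y : ℝ≥0∞ => y / δ) (Iic x) x :=
            (ENNReal.continuous_div_const δ h0).continuousWithinAt
          exact ContinuousWithinAt.comp (t := Iic (x / δ)) h3 h4
            (fun y hy => ENNReal.div_le_div_right hy δ)
    exact key.congr_of_eventuallyEq (h.filter_mono nhdsWithin_le_nhds) (by simp [hx.ne])
  map_zero' := by simp [G.map_zero']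
  map_top' := by simp

/-- `(S, 𝓕)` is a PM space under `τ`. -/
structure IsPMSpace {S : Type} (F : S → S → DPlus) (τ : DPlus → DPlus → DPlus) : Prop where
  refl : ∀ p, F p p = eps0
  ne : ∀ p q, p ≠ q → F p q ≠ eps0
  symm : ∀ p q, F p q = F q p
  triangle : ∀ p q r, τ (F p q) (F q r) ≤ F p r

/-- `τ` is universal for the class of all simple spaces `(S, d, G)`: here `(S,d)` is a metric
space with distances in `[0,∞]`. -/
def UniversalForSimple (τ : DPlus → DPlus → DPlus) : Prop :=
  ∀ (S : Type) [EMetricSpace S] (G : DPlus), G ≠ eps0 → G ≠ epsTop →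
    IsPMSpace (fun p q : S => simple G (edist p q)) τ

lemma nonneg (F : DPlus) (x : ℝ≥0∞) : 0 ≤ F x := by
  have := F.mono' (zero_le : 0 ≤ x)
  rwa [F.map_zero'] at this

lemma le_one (F : DPlus) (x : ℝ≥0∞) : F x ≤ 1 := by
  have := F.mono' (le_top : x ≤ ⊤)
  rwa [F.map_top'] at this

lemma tauM_bdd (F G : DPlus) (x : ℝ≥0∞) :
    BddAbove {t | ∃ u v : ℝ≥0∞, u + v = x ∧ t = min (F u) (G v)} := by
  refine ⟨1, ?_⟩
  rintro t ⟨u, v, _, rfl⟩
  exact (min_le_left _ _).trans (le_one F u)

lemma le_tauM (F G : DPlus) {x u v : ℝ≥0∞} (h : u + v = x) :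
    min (F u) (G v) ≤ tauM F G x :=
  le_csSup (tauM_bdd F G x) ⟨u, v, h, rfl⟩

/-- the two-step distribution function `t ε_0 + (1-t) ε_1` -/
noncomputable def twoStep (t : ℝ) (h0 : 0 ≤ t) (h1 : t ≤ 1) : DPlus where
  toFun x := if x = 0 then 0 else if x ≤ 1 then t else 1
  mono' := by
    intro x y hxy
    by_cases hx : x = 0
    · simp only [hx, if_true]
      split_ifs <;> linarith
    · have hy : y ≠ 0 := fun h => hx (le_antisymm (h ▸ hxy) (zero_le))
      simp only [hx, hy, if_false]
      by_cases hy1 : y ≤ 1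
      · simp [hy1, hxy.trans hy1]
      · simp only [hy1, if_false]
        split_ifs <;> linarith
  leftCont' := by
    intro x hx0 hx
    by_cases hx1 : x ≤ 1
    · have h : (fun y : ℝ≥0∞ => if y = 0 then (0:ℝ) else if y ≤ 1 then t else 1)
          =ᶠ[𝓝[Iic x] x] fun _ => t := by
        filter_upwards [self_mem_nhdsWithin, nhdsWithin_le_nhds (lt_mem_nhds hx0)] with y hy hy0
        have h2 : y ≤ 1 := le_trans hy hx1
        simp [hy0.ne', h2]
      exact continuousWithinAt_const.congr_of_eventuallyEq h (by simp [hx0.ne', hx1])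
    · push Not at hx1
      have h : (fun y : ℝ≥0∞ => if y = 0 then (0:ℝ) else if y ≤ 1 then t else 1)
          =ᶠ[𝓝 x] fun _ => 1 := by
        filter_upwards [lt_mem_nhds hx1] with y hy
        have h2 : y ≠ 0 := fun h => by simp [h] at hy
        simp [h2, not_le.mpr hy]
      exact ((continuousAt_const.congr h.symm)).continuousWithinAt
  map_zero' := by simp
  map_top' := by simp

lemma exists_level (F : DPlus) (x : ℝ≥0∞) (hx : x < ⊤) (t : ℝ) (ht : 0 ≤ t) :
    ∃ a ≤ x, F a ≤ t ∧ ∀ u, a < u → u ≤ x → t < F u := by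
  set A := {u : ℝ≥0∞ | F u ≤ t ∧ u ≤ x} with hA
  have h0 : (0 : ℝ≥0∞) ∈ A := ⟨by rw [F.map_zero']; exact ht, zero_le⟩
  refine ⟨sSup A, sSup_le fun u hu => hu.2, ?_, ?_⟩
  · by_cases h : sSup A = 0
    · rw [h, F.map_zero']; exact ht
    · have hpos : 0 < sSup A := pos_iff_ne_zero.mpr h
      have hfin : sSup A < ⊤ := (sSup_le fun u hu => hu.2).trans_lt hx
      have hc := F.leftCont' _ hpos hfin
      have hc' : Tendsto F.toFun (𝓝[<] (sSup A)) (𝓝 (F (sSup A))) :=
        hc.mono_left (nhdsWithin_mono _ Iio_subset_Iic_self)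
      have : (𝓝[<] (sSup A)).NeBot := nhdsLT_neBot_of_exists_lt ⟨0, hpos⟩
      refine le_of_tendsto hc' ?_
      filter_upwards [self_mem_nhdsWithin] with u hu
      obtain ⟨u', hu', huu'⟩ := lt_sSup_iff.mp (show u < sSup A from hu)
      exact (F.mono' huu'.le).trans hu'.1
  · intro u hu hux
    by_contra h
    push Not at h
    exact absurd (le_sSup (show u ∈ A from ⟨h, hux⟩)) (not_le.mpr hu)

/-- **MP_6d1e65_an, Q1.** Every triangle function `τ` which is universal for the class of all
simple spaces satisfies `τ(F,G)(x) ≤ τ_M(F,G)(x)` for all `F, G ∈ Δ⁺` and all `x ∈ [0,∞]`. -/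
theorem result (τ : DPlus → DPlus → DPlus) (hτ : IsTriangleFunction τ)
    (huniv : UniversalForSimple τ) (F G : DPlus) (x : ℝ≥0∞) :
    τ F G x ≤ tauM F G x := by
  by_cases hx0 : x = 0
  · rw [hx0, (τ F G).map_zero']
    have := le_tauM F G (show (0:ℝ≥0∞) + 0 = 0 by simp)
    rw [F.map_zero', G.map_zero', min_self] at this
    exact this
  by_cases hxt : x = ⊤
  · rw [hxt, (τ F G).map_top']
    have := le_tauM F G (show (⊤:ℝ≥0∞) + ⊤ = ⊤ by simp)
    rw [F.map_top', G.map_top', min_self] at this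
    exact this
  have hxpos : 0 < x := pos_iff_ne_zero.mpr hx0
  have hxfin : x < ⊤ := lt_top_iff_ne_top.mpr hxt
  have hs0 : 0 ≤ tauM F G x :=
    (le_min (nonneg F 0) (nonneg G x)).trans (le_tauM F G (zero_add x))
  refine le_of_forall_gt_imp_ge_of_dense fun t ht => ?_
  by_cases ht1 : 1 ≤ t
  · exact (le_one _ _).trans ht1
  push Not at ht1
  have ht0 : 0 ≤ t := hs0.trans ht.le
  obtain ⟨a, hax, hFa, ha⟩ := exists_level F x hxfin t ht0
  obtain ⟨b, hbx, hGb, hb⟩ := exists_level G x hxfin t ht0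
  have haT : a ≠ ⊤ := (hax.trans_lt hxfin).ne
  have hbT : b ≠ ⊤ := (hbx.trans_lt hxfin).ne
  have hab : x ≤ a + b := by
    by_contra h
    push Not at h
    have h1 : a < x - b := by
      rw [lt_tsub_iff_right]; exact h
    obtain ⟨u, hau, hub⟩ := exists_between h1
    have hux : u ≤ x := hub.le.trans tsub_le_self
    have hub' : u + b < x := by rwa [lt_tsub_iff_right] at hub
    have hbv : b < x - u := by
      rw [lt_tsub_iff_left]; exact hub'
    have huv : u + (x - u) = x := add_tsub_cancel_of_le hux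
    have h2 := le_tauM F G huv
    have h3 := ha u hau hux
    have h4 := hb (x - u) hbv tsub_le_self
    have : t < min (F u) (G (x - u)) := lt_min h3 h4
    linarith
  have leeps : ∀ H : DPlus, H ≤ eps0 := by
    intro H y
    show H y ≤ if y = 0 then 0 else 1
    split_ifs with h
    · rw [h, H.map_zero']
    · exact le_one H y
  have lerefl : ∀ H : DPlus, H ≤ H := fun H y => le_rfl
  by_cases ha0 : a = 0
  · have h1 : τ F G ≤ τ eps0 G := hτ.mono _ _ _ _ (leeps F) (lerefl G)
    rw [hτ.ident] at h1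
    rw [ha0, zero_add] at hab
    exact (h1 x).trans ((G.mono' hab).trans hGb)
  by_cases hb0 : b = 0
  · have h1 : τ F G ≤ τ F eps0 := hτ.mono _ _ _ _ (lerefl F) (leeps G)
    rw [hτ.comm, hτ.comm F eps0, hτ.ident] at h1
    rw [hb0, add_zero] at hab
    rw [hτ.comm]
    exact (h1 x).trans ((F.mono' hab).trans hFa)
  -- the three-point space on the line
  set K := twoStep t ht0 ht1.le with hK
  have hK0 : K ≠ eps0 := by
    intro h
    have h1 : K 1 = eps0 1 := by rw [h]
    have h2 : K 1 = t := by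
      show (if (1:ℝ≥0∞) = 0 then (0:ℝ) else if (1:ℝ≥0∞) ≤ 1 then t else 1) = t
      simp
    have h3 : eps0 1 = 1 := by
      show (if (1:ℝ≥0∞) = 0 then (0:ℝ) else 1) = 1
      simp
    rw [h2, h3] at h1
    linarith
  have hK1 : K ≠ epsTop := by
    intro h
    have h1 : K 2 = epsTop 2 := by rw [h]
    have h2 : K 2 = 1 := by
      show (if (2:ℝ≥0∞) = 0 then (0:ℝ) else if (2:ℝ≥0∞) ≤ 1 then t else 1) = 1
      have : ¬ (2:ℝ≥0∞) ≤ 1 := by norm_num
      simp [this]
    have h3 : epsTop 2 = 0 := by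
      show (if (2:ℝ≥0∞) = ⊤ then (1:ℝ) else 0) = 0
      simp
    rw [h2, h3] at h1
    norm_num at h1
  have hle : ∀ (H : DPlus) (c : ℝ≥0∞), c ≠ 0 → c ≠ ⊤ → H c ≤ t → H ≤ simple K c := by
    intro H c hc0 hcT hc y
    show H y ≤ if y = ⊤ then 1 else
      (if y / c = 0 then (0:ℝ) else if y / c ≤ 1 then t else 1)
    by_cases hy : y = ⊤
    · simp only [hy, if_true]; exact le_one H _
    · simp only [hy, if_false]
      by_cases hy0 : y = 0
      · simp [hy0, H.map_zero']
      · have h1 : y / c ≠ 0 := by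
          rw [Ne, ENNReal.div_eq_zero_iff]; push Not; exact ⟨hy0, hcT⟩
        simp only [h1, if_false]
        split_ifs with h2
        · have : y ≤ c := by
            rw [ENNReal.div_le_iff hc0 hcT, one_mul] at h2; exact h2
          exact (H.mono' this).trans hc
        · exact le_one H y
  have hpm := (huniv ℝ K hK0 hK1).triangle 0 a.toReal (a.toReal + b.toReal)
  have d1 : edist (0:ℝ) a.toReal = a := by
    rw [edist_dist, Real.dist_eq, zero_sub, abs_neg, abs_of_nonneg ENNReal.toReal_nonneg,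
      ENNReal.ofReal_toReal haT]
  have d2 : edist a.toReal (a.toReal + b.toReal) = b := by
    rw [edist_dist, Real.dist_eq, sub_add_cancel_left, abs_neg,
      abs_of_nonneg ENNReal.toReal_nonneg, ENNReal.ofReal_toReal hbT]
  have d3 : edist (0:ℝ) (a.toReal + b.toReal) = a + b := by
    rw [edist_dist, Real.dist_eq, zero_sub, abs_neg, abs_of_nonneg (by positivity),
      ENNReal.ofReal_add ENNReal.toReal_nonneg ENNReal.toReal_nonneg,
      ENNReal.ofReal_toReal haT, ENNReal.ofReal_toReal hbT]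
  simp only [d1, d2, d3] at hpm
  have h1 : τ F G ≤ τ (simple K a) (simple K b) :=
    hτ.mono _ _ _ _ (hle F a ha0 haT hFa) (hle G b hb0 hbT hGb)
  refine (h1 x).trans ((hpm x).trans ?_)
  show (if x = ⊤ then (1:ℝ) else
      (if x / (a + b) = 0 then (0:ℝ) else if x / (a + b) ≤ 1 then t else 1)) ≤ t
  have habT : a + b ≠ ⊤ := by simp [haT, hbT]
  have hab0 : a + b ≠ 0 := fun h => ha0 (by simpa using (add_eq_zero.mp h).1)
  have h3 : x / (a + b) ≤ 1 := by
    rw [ENNReal.div_le_iff hab0 habT, one_mul]; exact hab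
  simp only [hxt, if_false, h3, if_true]
  split_ifs
  · exact ht0
  · exact le_rfl

end Pool.Agent.Results.MP_6d1e65_an.Strongest
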